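import Mathlib
import Pool.Agent.W_8cdb14_h41.Main

/-!
# MP_8cdb14_an: ergodic locally homogeneous Finsler metrics are isotropic

Let `G` be a unimodular Lie group, `K` a compact connected subgroup which acts almost effectively,
`Γ` any subgroup of `G`, and `D` a `G`-invariant Finsler metric on `G / K` (class `C²` off the zero
section, positively homogeneous, strongly convex).  If the geodesic flow on the unit tangent bundle
of `Γ \ G / K` is ergodic for the Liouville measure, then `K` acts transitively on the unit sphere
of `T_o(G / K)`, the metric is Riemannian (and isotropic), and `K` is not trivial if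
`dim G / K > 0`.

A closed manifold `Γ \ G / K` (with `Γ` discrete) has `G` unimodular.  So a closed manifold whose
universal cover has no isotropic homogeneous metric carries no metric of this kind with an ergodic
geodesic flow.
-/

open MeasureTheory
open scoped Manifold
open Pool.Agent.W_8cdb14_h41

theorem Pool.Agent.Results.MP_8cdb14_an.HomogeneousErgodic.result
    {E : Type} [NormedAddCommGroup E] [NormedSpace ℝ E] [CompleteSpace E]
    {M : Type} [TopologicalSpace M] {I : ModelWithCorners ℝ E M}
    {G : Type} [TopologicalSpace G] [ChartedSpace M G] [Group G]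
    [LieGroup I (minSmoothness ℝ 3) G] [MeasurableSpace G] {m l : ℕ}
    (μ : Measure G) [μ.IsHaarMeasure] (Γ : Subgroup G)
    (D : HomFinsler (GroupLieAlgebra I G) m l) (hD : D.Valid)
    (hU : ∀ x : GroupLieAlgebra I G, LinearMap.trace ℝ (GroupLieAlgebra I G)
      (LieAlgebra.ad ℝ (GroupLieAlgebra I G) x) = 0)
    (herg : IsErgodic μ Γ D) :
    (∀ u w, D.F u = 1 → D.F w = 1 →
      ∃ g ∈ D.K0, Matrix.mulVec g (Sum.elim u 0) = Sum.elim w 0) ∧
      (∃ c > 0, ∀ u, D.F u = c * √(∑ i, u i ^ 2)) ∧ (0 < m → 0 < l) :=
  main μ Γ D hD hU herg
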